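import Mathlib

/-!
# Primary conjugacy in group-embeddable semigroups

In a semigroup `S`, write `a ∼ₚ b` if `a = u v` and `b = v u` for some `u, v ∈ S¹`.
We show that `∼ₚ` need not be transitive in a semigroup that embeds in a group
(even in a free group of rank three), hence also need not be transitive in a cancellative semigroup.

The semigroup is the subsemigroup of the free group on `x, u, v` generated by
`x, u, v` and `y = x⁻¹ v u`.  Here `u v ∼ₚ v u = x y ∼ₚ y x`, but `u v` and `y x` are not
primarily conjugate.
-/

namespace Pool.Agent.Results.MP_36d240_al.NotTransitive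

/-- Primary conjugacy: `a = u v` and `b = v u` for some `u, v ∈ S¹`, where `S¹ = WithOne S` is the
monoid obtained from `S` by adjoining a new identity. -/
def PConj {S : Type*} [Semigroup S] (a b : S) : Prop :=
  ∃ u v : WithOne S, (a : WithOne S) = u * v ∧ (b : WithOne S) = v * u

/-- The ambient free group. -/
abbrev F : Type := FreeGroup (Fin 3)

/-- The first free generator `x`. -/
def x : F := FreeGroup.of 0

/-- The second free generator `u`. -/
def u : F := FreeGroup.of 1

/-- The third free generator `v`. -/
def v : F := FreeGroup.of 2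

/-- The element `y = x⁻¹ v u`. -/
def y : F := x⁻¹ * v * u

/-- The generating set of the semigroup. -/
def gens : Set F := {x, u, v, y}

/-- The semigroup generated by `x, u, v, y`. -/
def S : Subsemigroup F := Subsemigroup.closure gens

/-- The degree homomorphism. -/
def deg : F →* Multiplicative ℤ := FreeGroup.lift fun _ => Multiplicative.ofAdd 1

lemma deg_gens {g : F} (hg : g ∈ gens) : deg g = Multiplicative.ofAdd 1 := by
  rcases hg with rfl | rfl | rfl | rfl <;> simp [x, u, v, y, deg]

lemma mem_S_cases {g : F} (hg : g ∈ S) :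
    (g ∈ gens ∧ Multiplicative.toAdd (deg g) = 1) ∨ 2 ≤ Multiplicative.toAdd (deg g) := by
  induction hg using Subsemigroup.closure_induction with
  | mem g hg => exact Or.inl ⟨hg, by rw [deg_gens hg]; rfl⟩
  | mul a b _ _ ha hb =>
    right
    rw [map_mul, toAdd_mul]
    rcases ha with ⟨_, ha⟩ | ha <;> rcases hb with ⟨_, hb⟩ | hb <;> omega

lemma key {p q : F} (hp : p ∈ gens) (hq : q ∈ gens) (h : p * q = u * v) : p = u ∧ q = v := by
  rcases hp with rfl | rfl | rfl | rfl <;> rcases hq with rfl | rfl | rfl | rfl <;>
    revert h <;> decide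

lemma x_mem : x ∈ S := Subsemigroup.subset_closure (by simp [gens])
lemma u_mem : u ∈ S := Subsemigroup.subset_closure (by simp [gens])
lemma v_mem : v ∈ S := Subsemigroup.subset_closure (by simp [gens])
lemma y_mem : y ∈ S := Subsemigroup.subset_closure (by simp [gens])

lemma not_pconj : ¬ PConj (S := S) (⟨u, u_mem⟩ * ⟨v, v_mem⟩) (⟨y, y_mem⟩ * ⟨x, x_mem⟩) := by
  rintro ⟨p, q, h1, h2⟩
  have hne : u * v ≠ y * x := by decide
  have hne2 : v * u ≠ y * x := by decide
  cases p with
  | one =>
    rw [one_mul] at h1
    rw [mul_one, ← h1] at h2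
    have := WithOne.coe_inj.1 h2
    exact hne (congrArg Subtype.val this).symm
  | coe p =>
    cases q with
    | one =>
      rw [mul_one] at h1
      rw [one_mul, ← h1] at h2
      have := WithOne.coe_inj.1 h2
      exact hne (congrArg Subtype.val this).symm
    | coe q =>
      rw [← WithOne.coe_mul] at h1 h2
      have h1' : u * v = p.1 * q.1 := congrArg Subtype.val (WithOne.coe_inj.1 h1)
      have h2' : y * x = q.1 * p.1 := congrArg Subtype.val (WithOne.coe_inj.1 h2)
      have hd : Multiplicative.toAdd (deg (p.1 * q.1)) = 2 := by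
        rw [← h1']
        simp [u, v, deg]
      rw [map_mul, toAdd_mul] at hd
      rcases mem_S_cases p.2 with ⟨hp, hp'⟩ | hp
      · rcases mem_S_cases q.2 with ⟨hq, hq'⟩ | hq
        · obtain ⟨e1, e2⟩ := key hp hq h1'.symm
          rw [e1, e2] at h2'
          exact hne2 h2'.symm
        · omega
      · rcases mem_S_cases q.2 with ⟨hq, hq'⟩ | hq <;> omega

/-- There is a semigroup which embeds in a free group of rank three (in particular it is
embeddable in a group and cancellative) on which primary conjugacy is not transitive. -/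
theorem result :
    ∃ (S : Type) (_ : Semigroup S),
      (∃ f : S →ₙ* FreeGroup (Fin 3), Function.Injective f) ∧ IsCancelMul S ∧
      ∃ a b c : S, PConj a b ∧ PConj b c ∧ ¬ PConj a c := by
  refine ⟨S, inferInstance, ⟨MulMemClass.subtype S, Subtype.val_injective⟩, ?_, ?_⟩
  · exact Function.Injective.isCancelMul (MulMemClass.subtype S) Subtype.val_injective
      (MulMemClass.subtype S).map_mul
  · refine ⟨⟨u, u_mem⟩ * ⟨v, v_mem⟩, ⟨v, v_mem⟩ * ⟨u, u_mem⟩, ⟨y, y_mem⟩ * ⟨x, x_mem⟩, ?_, ?_,
      not_pconj⟩
    · exact ⟨((⟨u, u_mem⟩ : S) : WithOne S), ((⟨v, v_mem⟩ : S) : WithOne S),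
        WithOne.coe_mul _ _, WithOne.coe_mul _ _⟩
    · refine ⟨((⟨x, x_mem⟩ : S) : WithOne S), ((⟨y, y_mem⟩ : S) : WithOne S), ?_,
        WithOne.coe_mul _ _⟩
      rw [← WithOne.coe_mul]
      congr 1
      apply Subtype.ext
      show v * u = x * y
      simp [y, mul_assoc]

end Pool.Agent.Results.MP_36d240_al.NotTransitive
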